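import Pool.Agent.H62.SW.Ins

/-!
# Switching a linear D-type latin square; all Mersenne exponents below 61 (MP_2f0703_co)

`F` is a field with `2 ^ k` elements, `t = a / (a + 1)`, `U` a subset invariant under the additions of `v`, `t v`, `t ^ 2 v` and disjoint
from `a U`. The rows are the translates of `x ↦ a x + a v` (`x ∈ U`), `x ↦ a x` (`x ∉ U`).
-/

set_option autoImplicit false

namespace Pool.Agent.Results.MP_2f0703_co.Switching

/-- `L i` is the row `i`, a permutation of the symbols; the array is a latin square if no column repeats a symbol -/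
def IsLatin {n : ℕ} (L : Fin n → Equiv.Perm (Fin n)) : Prop :=
  ∀ j : Fin n, Function.Injective (fun i => L i j)

/-- every row fixes exactly one point and permutes the other points in a single cycle -/
def IsDType {n : ℕ} (L : Fin n → Equiv.Perm (Fin n)) : Prop :=
  ∀ i : Fin n, (∃! x, L i x = x) ∧ ∀ x y, L i x ≠ x → L i y ≠ y → ∃ k : ℕ, ((L i) ^ k) x = y

/-- the product of two arrays, row by row: `(L M)_i (j) = L_i (M_i (j))` -/
def prod {n : ℕ} (L M : Fin n → Equiv.Perm (Fin n)) : Fin n → Equiv.Perm (Fin n) := fun i => L i * M i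

/-- `L` is isotopic to the Cayley table of a group: permuting rows, columns and symbols gives the table -/
def BasedOnGroup {n : ℕ} (L : Fin n → Equiv.Perm (Fin n)) : Prop :=
  ∃ (G : Type) (_ : Group G) (r c s : Fin n ≃ G), ∀ i j, s (L i j) = r i * c j

/-- there is a D-type latin square of order `n` which is not based on a group and whose square is latin -/
def HasSquare (n : ℕ) : Prop :=
  ∃ L : Fin n → Equiv.Perm (Fin n), IsLatin L ∧ IsDType L ∧ ¬ BasedOnGroup L ∧ IsLatin (prod L L)

/-- (1) The switching theorem. `F` is a field with `2 ^ k` elements, `a ≠ 0, 1`, `v ≠ 0`, `t (a + 1) = a`, `U` is a nonempty subset of `F`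
with fewer than `2 ^ k / 4` elements, invariant under `x ↦ x + v`, `x + t v`, `x + t ^ 2 v`, and disjoint from `a U`. If the map
`x ↦ a x + a v` on `U`, `x ↦ a x` outside `U`, permutes the nonzero elements of `F` in a single cycle, then there is a D-type latin square of
order `2 ^ k`, not based on a group, whose square is a latin square. (2) There is one for `k = 7, 13, 17, 19, 31`. -/
theorem result :
    (∀ (k : ℕ) (F : Type) [Field F] [Fintype F] [DecidableEq F], Fintype.card F = 2 ^ k → ∀ (a v t : F) (U : Finset F),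
      a ≠ 0 → v ≠ 0 → a + 1 ≠ 0 → t * (a + 1) = a → U.Nonempty → 4 * U.card < 2 ^ k →
      (∀ x ∈ U, x + v ∈ U ∧ x + t * v ∈ U ∧ x + t * t * v ∈ U ∧ a * x ∉ U) →
      (∀ x y : F, x ≠ 0 → y ≠ 0 → ∃ n : ℕ, (fun x => a * x + if x ∈ U then a * v else 0)^[n] x = y) → HasSquare (2 ^ k)) ∧
    ∀ k ∈ ({7, 13, 17, 19, 31} : Finset ℕ), HasSquare (2 ^ k) := by
  refine ⟨fun k F _ _ _ hcard a v t U ha hv ha1 ht hU hc hinv hcyc =>
    Pool.Agent.H62.SW.switch hcard a v t U ha hv ha1 ht hU hc hinv hcyc, fun k hk => ?_⟩
  simp only [Finset.mem_insert, Finset.mem_singleton] at hk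
  rcases hk with rfl | rfl | rfl | rfl | rfl
  · exact Pool.Agent.H62.SW.sq7
  · exact Pool.Agent.H62.SW.sq13
  · exact Pool.Agent.H62.SW.sq17
  · exact Pool.Agent.H62.SW.sq19
  · exact Pool.Agent.H62.SW.sq31

end Pool.Agent.Results.MP_2f0703_co.Switching
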